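import Mathlib
import Pool.Agent.R499.AperyPow

/-!
# Numerators of `∑_{k=1}^{n} C(n,k)^2 C(n+k,k)^2 / k^{2m+1}` at `n = p - 1`
-/

namespace Pool.Agent.Results.MP_a0b46e_nt.NumeratorsModP4

open Finset

/-- `S_m(n) = ∑_{k=1}^{n} C(n,k)^2 C(n+k,k)^2 / k^{2m+1}`, a rational number. -/
def S (m n : ℕ) : ℚ :=
  ∑ k ∈ Icc 1 n, ((n.choose k : ℚ)) ^ 2 * ((n + k).choose k : ℚ) ^ 2 / (k : ℚ) ^ (2 * m + 1)

/-- `u_m(n)`: the numerator of `S_m(n)` in lowest terms (and `u_m(0) = 0`). -/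
def u (m n : ℕ) : ℤ := (S m n).num

/-- For every `m ≥ 0` there is a finite set `E` of primes such that `p^4` divides `u_m(p-1)` for
every prime `p ∉ E`; one can take the set of primes `p ≤ 2 m + 5`. -/
theorem result (m : ℕ) : ∃ E : Finset ℕ, (∀ q ∈ E, q.Prime ∧ q ≤ 2 * m + 5) ∧
    ∀ p : ℕ, p.Prime → p ∉ E → (p : ℤ) ^ 4 ∣ u m (p - 1) := by
  refine ⟨(range (2 * m + 6)).filter Nat.Prime, ?_, ?_⟩
  · intro q hq
    rw [mem_filter, mem_range] at hq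
    exact ⟨hq.2, by omega⟩
  · intro p hp hpE
    have h : 2 * m + 6 ≤ p := by
      by_contra hlt
      exact hpE (mem_filter.mpr ⟨mem_range.mpr (by omega), hp⟩)
    exact Pool.Agent.R499.AperyPow.main hp (by omega)

end Pool.Agent.Results.MP_a0b46e_nt.NumeratorsModP4
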